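import Mathlib

set_option autoImplicit false
open Filter Topology MeasureTheory AddCircle
open scoped ComplexConjugate

/-!
Fourier coefficients of the boundary function of the singular inner function `exp ((z+1)/(z-1))`.
-/

namespace Pool.Agent.H82R3.FS

noncomputable section

abbrev C1 : Type := AddCircle (1 : ℝ)

abbrev μ : Measure C1 := haarAddCircle

/-- the coordinate on the circle -/
def zt (t : C1) : ℂ := fourier 1 t

lemma norm_zt (t : C1) : ‖zt t‖ = 1 := by
  unfold zt
  rw [fourier_one]
  exact Circle.norm_coe _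

lemma continuous_zt : Continuous zt := (fourier 1 : C(C1, ℂ)).continuous

lemma fourier_nat (n : ℕ) (t : C1) : fourier (n : ℤ) t = zt t ^ n := by
  unfold zt
  induction n with
  | zero => simp
  | succ k ih => rw [pow_succ, ← ih, Nat.cast_succ, fourier_add]

lemma zt_ne_one : ∀ᵐ t ∂μ, zt t ≠ 1 := by
  have h1 : ∀ t : C1, zt t = 1 → t = 0 := by
    intro t ht
    unfold zt at ht
    rw [fourier_one] at ht
    have h2 : AddCircle.toCircle t = 1 := by
      apply Circle.ext
      rw [ht]; simp
    have := AddCircle.injective_toCircle (T := (1:ℝ)) one_ne_zero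
    apply this
    rw [h2, AddCircle.toCircle_zero]
  have h2 : μ ({0} : Set C1) = 0 := by
    have h3 : (volume : Measure C1) {0} = 0 := by
      rw [← Metric.closedBall_zero, AddCircle.volume_closedBall]
      simp
    rw [volume_eq_smul_haarAddCircle] at h3
    simpa using h3
  have h3 : ∀ᵐ t ∂μ, t ∈ ({0} : Set C1)ᶜ := by
    rw [ae_iff]
    simpa using h2
  filter_upwards [h3] with t ht h
  exact ht (h1 t h)

/-- Fourier coefficients of an absolutely convergent power series -/
lemma coeff_of_sum (d : ℕ → ℂ) (hd : Summable (fun k => ‖d k‖)) (n : ℤ) :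
    fourierCoeff (fun t : C1 => ∑' k, d k * zt t ^ k) n = if 0 ≤ n then d n.toNat else 0 := by
  unfold fourierCoeff
  have h1 : ∀ t : C1, fourier (-n) t • ∑' k, d k * zt t ^ k = ∑' k, fourier (-n) t * (d k * zt t ^ k) := by
    intro t
    rw [smul_eq_mul, tsum_mul_left]
  simp_rw [h1]
  have hcont : ∀ k, Continuous (fun t : C1 => fourier (-n) t * (d k * zt t ^ k)) := by
    intro k
    exact (map_continuous (fourier (-n))).mul (continuous_const.mul (continuous_zt.pow k))
  have hn : ∀ k (t : C1), ‖fourier (-n) t * (d k * zt t ^ k)‖ = ‖d k‖ := by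
    intro k t
    rw [norm_mul, norm_mul, norm_pow, norm_zt, one_pow, mul_one]
    rw [fourier_apply, Circle.norm_coe, one_mul]
  rw [← integral_tsum_of_summable_integral_norm]
  · have h2 : ∀ k, ∫ t : C1, fourier (-n) t * (d k * zt t ^ k) ∂μ = d k * (if n = (k : ℤ) then 1 else 0) := by
      intro k
      have h3 := congrFun (fourierCoeff_fourier (T := (1:ℝ)) (k : ℤ)) n
      unfold fourierCoeff at h3
      rw [Pi.single_apply] at h3
      rw [← h3, ← integral_const_mul]
      apply integral_congr_ae
      filter_upwards with t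
      rw [fourier_nat, smul_eq_mul]
      ring
    simp_rw [h2]
    by_cases h : 0 ≤ n
    · rw [if_pos h, tsum_eq_single n.toNat]
      · rw [if_pos (by omega), mul_one]
      · intro k hk
        rw [if_neg (by omega), mul_zero]
    · rw [if_neg h]
      have h3 : ∀ k : ℕ, d k * (if n = (k : ℤ) then (1 : ℂ) else 0) = 0 := by
        intro k
        rw [if_neg (by omega), mul_zero]
      simp_rw [h3]
      exact tsum_zero
  · intro k
    exact (hcont k).integrable_of_hasCompactSupport (HasCompactSupport.of_compactSpace _)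
  · simp_rw [hn]
    simpa using hd

/-- the singular inner function -/
def G (z : ℂ) : ℂ := Complex.exp ((z + 1) / (z - 1))

lemma norm_G {z : ℂ} (hz : z ≠ 1) : ‖G z‖ = Real.exp (-((1 - ‖z‖ ^ 2) / ‖1 - z‖ ^ 2)) := by
  unfold G
  rw [Complex.norm_exp]
  congr 1
  have h1 : z - 1 ≠ 0 := sub_ne_zero.2 hz
  have h2 : Complex.normSq (z - 1) ≠ 0 := by simpa using h1
  rw [Complex.div_re, ← norm_neg (1 - z), neg_sub, ← Complex.normSq_eq_norm_sq, ← Complex.normSq_eq_norm_sq,
    ← add_div, ← neg_div]
  congr 1
  rw [Complex.normSq_apply]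
  simp
  ring

lemma norm_G_le {z : ℂ} (hz : z ≠ 1) (h : ‖z‖ ≤ 1) : ‖G z‖ ≤ 1 := by
  rw [norm_G hz]
  apply Real.exp_le_one_iff.2
  rw [neg_nonpos]
  apply div_nonneg
  · nlinarith [norm_nonneg z]
  · positivity

lemma G_diff : DifferentiableOn ℂ G (Metric.ball 0 1) := by
  intro z hz
  have hz1 : z - 1 ≠ 0 := by
    intro h
    rw [sub_eq_zero] at h
    rw [h] at hz
    simp at hz
  apply DifferentiableAt.differentiableWithinAt
  unfold G
  apply DifferentiableAt.cexp
  exact (differentiableAt_id.add_const _).div (differentiableAt_id.sub_const _) hz1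

/-- Taylor coefficients -/
def c (n : ℕ) : ℂ := (n.factorial : ℂ)⁻¹ * iteratedDeriv n G 0

lemma hasSum_G {z : ℂ} (hz : ‖z‖ < 1) : HasSum (fun n => c n * z ^ n) (G z) := by
  have h := Complex.hasSum_taylorSeries_on_ball G_diff (z := z) (by simpa using hz)
  have e : (fun n => c n * z ^ n) =
      fun n : ℕ => (n.factorial : ℂ)⁻¹ • (z - 0) ^ n • iteratedDeriv n G 0 := by
    funext n
    unfold c
    rw [sub_zero, smul_eq_mul, smul_eq_mul]
    ring
  rw [e]
  exact h

lemma summable_c {r : ℝ} (h0 : 0 ≤ r) (h1 : r < 1) : Summable (fun k => ‖c k‖ * r ^ k) := by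
  have h := (hasSum_G (z := (r : ℂ)) (by rw [Complex.norm_real, Real.norm_of_nonneg h0]; exact h1)).summable.norm
  refine h.congr (fun k => ?_)
  rw [norm_mul, norm_pow, Complex.norm_real, Real.norm_of_nonneg h0]

/-- the boundary function -/
def g (t : C1) : ℂ := G (zt t)

lemma measurable_G : Measurable G := by
  unfold G
  fun_prop

lemma measurable_g : Measurable g := measurable_G.comp continuous_zt.measurable

lemma norm_g : ∀ᵐ t ∂μ, ‖g t‖ = 1 := by
  filter_upwards [zt_ne_one] with t ht
  unfold g
  rw [norm_G ht, norm_zt]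
  simp

/-- radii -/
def rr (m : ℕ) : ℝ := 1 - 1 / ((m : ℝ) + 2)

lemma rr_lt (m : ℕ) : rr m < 1 := by
  unfold rr
  have : 0 < 1 / ((m : ℝ) + 2) := by positivity
  linarith

lemma rr_pos (m : ℕ) : 0 < rr m := by
  unfold rr
  have : 1 / ((m : ℝ) + 2) < 1 := by
    rw [div_lt_one (by positivity)]
    have : (0 : ℝ) ≤ m := Nat.cast_nonneg m
    linarith
  linarith

lemma rr_tendsto : Tendsto rr atTop (𝓝 1) := by
  unfold rr
  have h1 : Tendsto (fun m : ℕ => 1 / ((m : ℝ) + 2)) atTop (𝓝 0) := by
    apply Tendsto.div_atTop tendsto_const_nhds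
    exact tendsto_atTop_add_const_right _ _ tendsto_natCast_atTop_atTop
  have h2 := h1.const_sub 1
  rw [sub_zero] at h2
  exact h2

lemma norm_rz (m : ℕ) (t : C1) : ‖(rr m : ℂ) * zt t‖ = rr m := by
  rw [norm_mul, norm_zt, mul_one, Complex.norm_real, Real.norm_of_nonneg (rr_pos m).le]

lemma rz_ne (m : ℕ) (t : C1) : (rr m : ℂ) * zt t ≠ 1 := by
  intro h
  have h1 := norm_rz m t
  rw [h, norm_one] at h1
  exact absurd h1.symm (rr_lt m).ne

/-- Fourier coefficients of the boundary function -/
lemma coeff_g (n : ℤ) : fourierCoeff g n = if 0 ≤ n then c n.toNat else 0 := by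
  have h1 : ∀ m, fourierCoeff (fun t : C1 => G ((rr m : ℂ) * zt t)) n =
      if 0 ≤ n then c n.toNat * (rr m : ℂ) ^ n.toNat else 0 := by
    intro m
    have e : (fun t : C1 => G ((rr m : ℂ) * zt t)) = fun t : C1 => ∑' k, (c k * (rr m : ℂ) ^ k) * zt t ^ k := by
      funext t
      rw [← (hasSum_G (z := (rr m : ℂ) * zt t) (by rw [norm_rz]; exact rr_lt m)).tsum_eq]
      apply tsum_congr
      intro k
      rw [mul_pow]; ring
    rw [e, coeff_of_sum]
    refine (summable_c (rr_pos m).le (rr_lt m)).congr (fun k => ?_)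
    rw [norm_mul, norm_pow, Complex.norm_real, Real.norm_of_nonneg (rr_pos m).le]
  have h2 : Tendsto (fun m => fourierCoeff (fun t : C1 => G ((rr m : ℂ) * zt t)) n) atTop (𝓝 (fourierCoeff g n)) := by
    unfold fourierCoeff
    apply tendsto_integral_of_dominated_convergence (fun _ => (1 : ℝ))
    · intro m
      apply Measurable.aestronglyMeasurable
      have hm : Measurable (fun t : C1 => G ((rr m : ℂ) * zt t)) :=
        measurable_G.comp (continuous_const.mul continuous_zt).measurable
      exact (map_continuous (fourier (-n))).measurable.smul hm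
    · exact integrable_const _
    · intro m
      filter_upwards with t
      rw [norm_smul, fourier_apply, Circle.norm_coe, one_mul]
      apply norm_G_le (rz_ne m t)
      rw [norm_rz]
      exact (rr_lt m).le
    · filter_upwards [zt_ne_one] with t ht
      apply Tendsto.const_smul
      unfold g
      have hc : ContinuousAt G (zt t) := by
        unfold G
        have : zt t - 1 ≠ 0 := sub_ne_zero.2 ht
        fun_prop (disch := assumption)
      apply hc.tendsto.comp
      have h3 : Tendsto (fun m => (rr m : ℂ)) atTop (𝓝 ((1 : ℝ) : ℂ)) :=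
        (Complex.continuous_ofReal.tendsto 1).comp rr_tendsto
      have h4 := h3.mul_const (zt t)
      simpa using h4
  have h3 : Tendsto (fun m => fourierCoeff (fun t : C1 => G ((rr m : ℂ) * zt t)) n) atTop
      (𝓝 (if 0 ≤ n then c n.toNat else 0)) := by
    simp_rw [h1]
    by_cases h : 0 ≤ n
    · simp only [h, if_true]
      have h3 : Tendsto (fun m => (rr m : ℂ)) atTop (𝓝 ((1 : ℝ) : ℂ)) :=
        (Complex.continuous_ofReal.tendsto 1).comp rr_tendsto
      have h4 := (h3.pow n.toNat).const_mul (c n.toNat)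
      simpa using h4
    · simp only [h, if_false]
      exact tendsto_const_nhds
  exact tendsto_nhds_unique h2 h3

lemma zt_neg (t : C1) : zt (-t) = conj (zt t) := by
  unfold zt
  rw [← fourier_neg]
  rw [fourier_apply, fourier_apply]
  congr 2
  simp

lemma G_conj (z : ℂ) : G (conj z) = conj (G z) := by
  unfold G
  rw [← Complex.exp_conj]
  simp

lemma g_neg (t : C1) : g (-t) = conj (g t) := by
  unfold g
  rw [zt_neg, G_conj]

lemma coeff_g_real (n : ℤ) : conj (fourierCoeff g n) = fourierCoeff g n := by
  unfold fourierCoeff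
  rw [← integral_conj, ← integral_neg_eq_self]
  apply integral_congr_ae
  filter_upwards with t
  rw [smul_eq_mul, smul_eq_mul, map_mul, g_neg, Complex.conj_conj]
  congr 1
  rw [← fourier_neg, fourier_apply, fourier_apply]
  simp

/-- real Taylor coefficients -/
def a (n : ℕ) : ℝ := (c n).re

lemma c_eq (n : ℕ) : c n = (a n : ℂ) := by
  have h1 := coeff_g_real (n : ℤ)
  rw [coeff_g] at h1
  simp only [Nat.cast_nonneg, if_true, Int.toNat_natCast] at h1
  unfold a
  exact (Complex.conj_eq_iff_re.1 h1).symm

end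

end Pool.Agent.H82R3.FS
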