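import Mathlib

set_option autoImplicit false
open Filter Topology
open scoped InnerProductSpace ComplexConjugate

/-!
Operators on `ℓ²(ℕ)`: the truncations `P n`, the flips `W n`, an isometry `T` with Toeplitz matrix.
-/

namespace Pool.Agent.H82R3.FS

noncomputable section

abbrev E : Type := lp (fun _ : ℕ => ℂ) 2

/-- the standard basis vectors -/
def e (k : ℕ) : E := lp.single 2 k (1 : ℂ)

lemma e_apply (k j : ℕ) : (e k) j = if j = k then 1 else 0 := by
  unfold e
  by_cases h : j = k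
  · subst h; simp [lp.single_apply_self]
  · rw [lp.single_apply_ne _ _ _ h, if_neg h]

lemma inner_e (k : ℕ) (x : E) : ⟪e k, x⟫_ℂ = x k := by
  unfold e
  rw [lp.inner_single_left]
  simp

lemma norm_e (k : ℕ) : ‖e k‖ = 1 := by
  unfold e
  rw [lp.norm_single (by norm_num)]
  simp

lemma inner_e_e (j k : ℕ) : ⟪e j, e k⟫_ℂ = if j = k then 1 else 0 := by
  rw [inner_e, e_apply]

/-- truncation -/
def P (n : ℕ) : E →L[ℂ] E := ∑ j ∈ Finset.range (n + 1), (innerSL ℂ (e j)).smulRight (e j)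

/-- flip -/
def W (n : ℕ) : E →L[ℂ] E := ∑ j ∈ Finset.range (n + 1), (innerSL ℂ (e (n - j))).smulRight (e j)

lemma sum_coe {ι : Type} (s : Finset ι) (f : ι → E) (j : ℕ) : (∑ i ∈ s, f i : E) j = ∑ i ∈ s, (f i) j := by
  induction s using Finset.cons_induction with
  | empty => simp
  | cons a s ha ih => rw [Finset.sum_cons, Finset.sum_cons, lp.coeFn_add, Pi.add_apply, ih]

lemma P_apply (n : ℕ) (x : E) (j : ℕ) : (P n x) j = if j ≤ n then x j else 0 := by
  unfold P
  rw [_root_.sum_apply, sum_coe]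
  simp only [ContinuousLinearMap.smulRight_apply, innerSL_apply_apply, inner_e, lp.coeFn_smul, Pi.smul_apply,
    e_apply, smul_eq_mul, mul_ite, mul_one, mul_zero]
  rw [Finset.sum_ite_eq]
  simp [Nat.lt_succ_iff]

lemma W_apply (n : ℕ) (x : E) (j : ℕ) : (W n x) j = if j ≤ n then x (n - j) else 0 := by
  unfold W
  rw [_root_.sum_apply, sum_coe]
  simp only [ContinuousLinearMap.smulRight_apply, innerSL_apply_apply, inner_e, lp.coeFn_smul, Pi.smul_apply,
    e_apply, smul_eq_mul, mul_ite, mul_one, mul_zero]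
  rw [Finset.sum_ite_eq]
  simp [Nat.lt_succ_iff]

lemma PP (n : ℕ) : P n * P n = P n := by
  ext x j
  rw [mul_apply_eq_comp, P_apply, P_apply]
  split_ifs <;> rfl

lemma WP (n : ℕ) : W n * P n = W n := by
  ext x j
  rw [mul_apply_eq_comp, W_apply, W_apply, P_apply]
  by_cases h : j ≤ n
  · simp [h]
  · simp [h]

lemma PW (n : ℕ) : P n * W n = W n := by
  ext x j
  rw [mul_apply_eq_comp, P_apply, W_apply]
  split_ifs <;> rfl

lemma WW (n : ℕ) : W n * W n = P n := by
  ext x j
  rw [mul_apply_eq_comp, W_apply, W_apply, P_apply]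
  by_cases h : j ≤ n
  · simp only [h, if_true]
    rw [if_pos (by omega), show n - (n - j) = j by omega]
  · simp [h]

lemma norm_sq (x : E) : ‖x‖ ^ 2 = ∑' j, ‖x j‖ ^ 2 := by
  have h := lp.norm_rpow_eq_tsum (p := 2) (by norm_num) x
  simp only [ENNReal.toReal_ofNat] at h
  exact_mod_cast h

lemma summable_sq (x : E) : Summable (fun j => ‖x j‖ ^ 2) := by
  have h := lp.memℓp x
  have h2 := h.summable (by norm_num)
  simp only [ENNReal.toReal_ofNat] at h2
  exact_mod_cast h2

lemma norm_P_le (n : ℕ) (x : E) : ‖P n x‖ ≤ ‖x‖ := by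
  apply le_of_sq_le_sq _ (norm_nonneg _)
  rw [norm_sq, norm_sq]
  apply Summable.tsum_le_tsum _ (summable_sq _) (summable_sq _)
  intro j
  rw [P_apply]
  split_ifs
  · exact le_refl _
  · simp

lemma norm_W_le (n : ℕ) (x : E) : ‖W n x‖ ≤ ‖x‖ := by
  apply le_of_sq_le_sq _ (norm_nonneg _)
  rw [norm_sq, norm_sq]
  rw [tsum_eq_sum (s := Finset.range (n + 1))]
  · calc ∑ j ∈ Finset.range (n + 1), ‖(W n x) j‖ ^ 2
        = ∑ j ∈ Finset.range (n + 1), ‖x (n + 1 - 1 - j)‖ ^ 2 := by
          apply Finset.sum_congr rfl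
          intro j hj
          rw [W_apply, if_pos (by simpa [Nat.lt_succ_iff] using hj)]
          simp
      _ = ∑ j ∈ Finset.range (n + 1), ‖x j‖ ^ 2 := Finset.sum_range_reflect (fun j => ‖x j‖ ^ 2) (n + 1)
      _ ≤ _ := (summable_sq x).sum_le_tsum _ (fun _ _ => by positivity)
  · intro j hj
    rw [W_apply, if_neg (by simpa [Nat.lt_succ_iff] using hj)]
    simp

/-- `P n x → x`. -/
lemma P_tendsto (x : E) : Tendsto (fun n => P n x) atTop (𝓝 x) := by
  have h1 : Tendsto (fun n => ‖P n x - x‖ ^ 2) atTop (𝓝 0) := by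
    have h2 : ∀ n, ‖P n x - x‖ ^ 2 = ∑' j, ‖x (j + (n + 1))‖ ^ 2 := by
      intro n
      rw [norm_sq]
      have hs := summable_sq (P n x - x)
      rw [← hs.sum_add_tsum_nat_add (n + 1)]
      have h3 : ∑ i ∈ Finset.range (n + 1), ‖(P n x - x) i‖ ^ 2 = 0 := by
        apply Finset.sum_eq_zero
        intro i hi
        rw [lp.coeFn_sub, Pi.sub_apply, P_apply, if_pos (by simpa [Nat.lt_succ_iff] using hi)]
        simp
      rw [h3, zero_add]
      apply tsum_congr
      intro j
      rw [lp.coeFn_sub, Pi.sub_apply, P_apply, if_neg (by omega)]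
      simp
    simp only [h2]
    have := tendsto_sum_nat_add (fun j => ‖x j‖ ^ 2)
    exact this.comp (tendsto_add_atTop_nat 1)
  rw [tendsto_iff_norm_sub_tendsto_zero]
  have h4 := h1.sqrt
  simpa [Real.sqrt_sq (norm_nonneg _)] using h4

end

end Pool.Agent.H82R3.FS
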