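import Mathlib
import Pool.Agent.H82R3.FS.Ops

set_option autoImplicit false
open Filter Topology
open scoped InnerProductSpace ComplexConjugate InnerProduct

namespace Pool.Agent.H82R3.FS

noncomputable section

lemma ext_matrix {A B : E →L[ℂ] E} (h : ∀ j k, (A (e k)) j = (B (e k)) j) : A = B := by
  have h1 : ∀ j, (ContinuousLinearMap.adjoint A) (e j) = (ContinuousLinearMap.adjoint B) (e j) := by
    intro j
    ext k
    rw [← inner_e, ← inner_e, ContinuousLinearMap.adjoint_inner_right, ContinuousLinearMap.adjoint_inner_right,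
      ← inner_conj_symm, inner_e, h, ← inner_e, inner_conj_symm]
  ext x j
  rw [← inner_e, ← inner_e, ← ContinuousLinearMap.adjoint_inner_left, ← ContinuousLinearMap.adjoint_inner_left, h1]

lemma P_e (n k : ℕ) : P n (e k) = if k ≤ n then e k else 0 := by
  ext j
  rw [P_apply, e_apply]
  by_cases h : k ≤ n
  · rw [if_pos h, e_apply]
    by_cases h2 : j = k
    · subst h2; simp [h]
    · simp [h2]
  · rw [if_neg h]
    by_cases h2 : j = k
    · subst h2; simp [h]
    · simp [h2]

lemma W_e (n k : ℕ) : W n (e k) = if k ≤ n then e (n - k) else 0 := by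
  ext j
  rw [W_apply, e_apply]
  by_cases h : k ≤ n
  · rw [if_pos h, e_apply]
    by_cases h1 : j ≤ n
    · rw [if_pos h1]
      by_cases h2 : n - j = k
      · rw [if_pos h2, if_pos (by omega)]
      · rw [if_neg h2, if_neg (by omega)]
    · rw [if_neg h1, if_neg (by omega)]
  · rw [if_neg h]
    by_cases h1 : j ≤ n
    · rw [if_pos h1, if_neg (by omega)]
      rfl
    · rw [if_neg h1]
      rfl

variable {a : ℕ → ℝ} {T : E →L[ℂ] E}

/-- the data: an isometry whose matrix is the lower triangular Toeplitz matrix of `a` -/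
structure Data (a : ℕ → ℝ) (T : E →L[ℂ] E) : Prop where
  iso : ∀ x, ‖T x‖ = ‖x‖
  mat : ∀ j k, (T (e k)) j = if k ≤ j then ((a (j - k) : ℝ) : ℂ) else 0

lemma Data.adj_mat (h : Data a T) (j k : ℕ) :
    ((ContinuousLinearMap.adjoint T) (e k)) j = if j ≤ k then ((a (k - j) : ℝ) : ℂ) else 0 := by
  rw [← inner_e, ContinuousLinearMap.adjoint_inner_right, ← inner_conj_symm, inner_e, h.mat]
  split_ifs <;> simp

lemma Data.adj_mul (h : Data a T) : (ContinuousLinearMap.adjoint T) * T = 1 := by
  have h1 := (ContinuousLinearMap.norm_map_iff_adjoint_comp_self T).1 h.iso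
  exact h1

lemma Data.norm_adj_le (h : Data a T) (x : E) : ‖(ContinuousLinearMap.adjoint T) x‖ ≤ ‖x‖ := by
  have h1 : ‖T‖ ≤ 1 := ContinuousLinearMap.opNorm_le_bound _ zero_le_one (fun x => by rw [h.iso, one_mul])
  have h2 : ‖ContinuousLinearMap.adjoint T‖ ≤ 1 := by
    rw [LinearIsometryEquiv.norm_map]; exact h1
  calc ‖(ContinuousLinearMap.adjoint T) x‖ ≤ ‖ContinuousLinearMap.adjoint T‖ * ‖x‖ := ContinuousLinearMap.le_opNorm _ _
    _ ≤ 1 * ‖x‖ := mul_le_mul_of_nonneg_right h2 (norm_nonneg _)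
    _ = ‖x‖ := one_mul _

lemma Data.WTW (h : Data a T) (n : ℕ) : W n * T * W n = P n * (ContinuousLinearMap.adjoint T) * P n := by
  apply ext_matrix
  intro j k
  rw [mul_apply_eq_comp, mul_apply_eq_comp, mul_apply_eq_comp, mul_apply_eq_comp, W_apply, P_apply, W_e, P_e]
  by_cases hk : k ≤ n
  · rw [if_pos hk, if_pos hk]
    by_cases hj : j ≤ n
    · rw [if_pos hj, if_pos hj, h.mat, h.adj_mat]
      by_cases hjk : j ≤ k
      · rw [if_pos (by omega), if_pos hjk, show n - j - (n - k) = k - j by omega]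
      · rw [if_neg (by omega), if_neg hjk]
    · rw [if_neg hj, if_neg hj]
  · rw [if_neg hk, if_neg hk, map_zero, map_zero]
    split_ifs <;> rfl

lemma Data.WTW' (h : Data a T) (n : ℕ) : W n * (ContinuousLinearMap.adjoint T) * W n = P n * T * P n := by
  apply ext_matrix
  intro j k
  rw [mul_apply_eq_comp, mul_apply_eq_comp, mul_apply_eq_comp, mul_apply_eq_comp, W_apply, P_apply, W_e, P_e]
  by_cases hk : k ≤ n
  · rw [if_pos hk, if_pos hk]
    by_cases hj : j ≤ n
    · rw [if_pos hj, if_pos hj, h.mat, h.adj_mat]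
      by_cases hjk : k ≤ j
      · rw [if_pos (by omega), if_pos hjk, show n - k - (n - j) = j - k by omega]
      · rw [if_neg (by omega), if_neg hjk]
    · rw [if_neg hj, if_neg hj]
  · rw [if_neg hk, if_neg hk, map_zero, map_zero]
    split_ifs <;> rfl

/-- first factor -/
def q1 (T : E →L[ℂ] E) (n : ℕ) : E →L[ℂ] E :=
  P n * (ContinuousLinearMap.adjoint T) * P n * (P n * T * P n) - P n * 1 * P n

/-- second factor -/
def q2 (T : E →L[ℂ] E) (n : ℕ) : E →L[ℂ] E :=
  P n * T * P n * (P n * (ContinuousLinearMap.adjoint T) * P n) - P n * 1 * P n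

lemma Data.W_q1 (h : Data a T) (n : ℕ) : W n * q1 T n * W n = q2 T n := by
  have e1 : W n * q1 T n * W n = (W n * ContinuousLinearMap.adjoint T * W n) * (W n * T * W n) - W n * W n := by
    unfold q1
    rw [mul_sub, sub_mul]
    congr 1
    · calc W n * (P n * ContinuousLinearMap.adjoint T * P n * (P n * T * P n)) * W n
          = (W n * P n) * ContinuousLinearMap.adjoint T * (P n * P n) * T * (P n * W n) := by simp only [mul_assoc]
        _ = _ := by rw [WP, PP, PW, ← WW]; simp only [mul_assoc]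
    · calc W n * (P n * 1 * P n) * W n = (W n * P n) * (P n * W n) := by simp only [mul_assoc, one_mul]
        _ = _ := by rw [WP, PW]
  rw [e1, h.WTW, h.WTW', WW]
  unfold q2
  rw [mul_one, PP]

lemma Data.W_q2 (h : Data a T) (n : ℕ) : W n * q2 T n * W n = q1 T n := by
  have e1 : W n * q2 T n * W n = (W n * T * W n) * (W n * ContinuousLinearMap.adjoint T * W n) - W n * W n := by
    unfold q2
    rw [mul_sub, sub_mul]
    congr 1
    · calc W n * (P n * T * P n * (P n * ContinuousLinearMap.adjoint T * P n)) * W n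
          = (W n * P n) * T * (P n * P n) * ContinuousLinearMap.adjoint T * (P n * W n) := by simp only [mul_assoc]
        _ = _ := by rw [WP, PP, PW, ← WW]; simp only [mul_assoc]
    · calc W n * (P n * 1 * P n) * W n = (W n * P n) * (P n * W n) := by simp only [mul_assoc, one_mul]
        _ = _ := by rw [WP, PW]
  rw [e1, h.WTW, h.WTW', WW]
  unfold q1
  rw [mul_one, PP]

lemma P_q1 (n : ℕ) : P n * q1 T n = q1 T n := by
  unfold q1
  rw [mul_sub]
  congr 1
  · simp only [← mul_assoc]; rw [PP]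
  · simp only [← mul_assoc]; rw [PP]

lemma q1_P (n : ℕ) : q1 T n * P n = q1 T n := by
  unfold q1
  rw [sub_mul]
  congr 1
  · simp only [mul_assoc]; rw [PP]
  · simp only [mul_assoc]; rw [PP]

lemma P_q2 (n : ℕ) : P n * q2 T n = q2 T n := by
  unfold q2
  rw [mul_sub]
  congr 1
  · simp only [← mul_assoc]; rw [PP]
  · simp only [← mul_assoc]; rw [PP]

lemma q2_P (n : ℕ) : q2 T n * P n = q2 T n := by
  unfold q2
  rw [sub_mul]
  congr 1
  · simp only [mul_assoc]; rw [PP]
  · simp only [mul_assoc]; rw [PP]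

/-- the sequence -/
def X (T : E →L[ℂ] E) (n : ℕ) : E →L[ℂ] E := q1 T n * q2 T n

lemma Data.WXW (h : Data a T) (n : ℕ) : W n * X T n * W n = q2 T n * q1 T n := by
  unfold X
  calc W n * (q1 T n * q2 T n) * W n = W n * (q1 T n * P n * q2 T n) * W n := by rw [q1_P]
    _ = (W n * q1 T n * W n) * (W n * q2 T n * W n) := by rw [← WW]; simp only [mul_assoc]
    _ = _ := by rw [h.W_q1, h.W_q2]

lemma Data.norm_q1_le (h : Data a T) (n : ℕ) (x : E) : ‖q1 T n x‖ ≤ 2 * ‖x‖ := by
  unfold q1
  rw [_root_.sub_apply]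
  simp only [mul_apply_eq_comp, one_apply_eq_self]
  calc _ ≤ ‖P n ((ContinuousLinearMap.adjoint T) (P n (P n (T (P n x)))))‖ + ‖P n (P n x)‖ := norm_sub_le _ _
    _ ≤ ‖x‖ + ‖x‖ := by
      apply add_le_add
      · calc _ ≤ ‖(ContinuousLinearMap.adjoint T) (P n (P n (T (P n x))))‖ := norm_P_le _ _
          _ ≤ ‖P n (P n (T (P n x)))‖ := h.norm_adj_le _
          _ ≤ ‖P n (T (P n x))‖ := norm_P_le _ _
          _ ≤ ‖T (P n x)‖ := norm_P_le _ _
          _ = ‖P n x‖ := h.iso _
          _ ≤ _ := norm_P_le _ _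
      · exact (norm_P_le _ _).trans (norm_P_le _ _)
    _ = _ := by ring

lemma Data.norm_q2_le (h : Data a T) (n : ℕ) (x : E) : ‖q2 T n x‖ ≤ 2 * ‖x‖ := by
  unfold q2
  rw [_root_.sub_apply]
  simp only [mul_apply_eq_comp, one_apply_eq_self]
  calc _ ≤ ‖P n (T (P n (P n ((ContinuousLinearMap.adjoint T) (P n x)))))‖ + ‖P n (P n x)‖ := norm_sub_le _ _
    _ ≤ ‖x‖ + ‖x‖ := by
      apply add_le_add
      · calc _ ≤ ‖T (P n (P n ((ContinuousLinearMap.adjoint T) (P n x))))‖ := norm_P_le _ _
          _ = ‖P n (P n ((ContinuousLinearMap.adjoint T) (P n x)))‖ := h.iso _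
          _ ≤ ‖P n ((ContinuousLinearMap.adjoint T) (P n x))‖ := norm_P_le _ _
          _ ≤ ‖(ContinuousLinearMap.adjoint T) (P n x)‖ := norm_P_le _ _
          _ ≤ ‖P n x‖ := h.norm_adj_le _
          _ ≤ _ := norm_P_le _ _
      · exact (norm_P_le _ _).trans (norm_P_le _ _)
    _ = _ := by ring

/-- if `z n → z` then `P n (z n) → z` -/
lemma P_tendsto' {z : ℕ → E} {w : E} (hz : Tendsto z atTop (𝓝 w)) : Tendsto (fun n => P n (z n)) atTop (𝓝 w) := by
  have h1 : Tendsto (fun n => P n (z n - w)) atTop (𝓝 0) := by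
    apply squeeze_zero_norm (a := fun n => ‖z n - w‖)
    · intro n; exact norm_P_le _ _
    · exact tendsto_iff_norm_sub_tendsto_zero.1 hz
  have h2 := h1.add (P_tendsto w)
  simp only [map_sub, sub_add_cancel, zero_add] at h2
  exact h2

lemma Data.q1_tendsto (h : Data a T) (x : E) : Tendsto (fun n => q1 T n x) atTop (𝓝 0) := by
  unfold q1
  simp only [_root_.sub_apply, mul_apply_eq_comp, one_apply_eq_self]
  have h1 : Tendsto (fun n => P n ((ContinuousLinearMap.adjoint T) (P n (P n (T (P n x)))))) atTop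
      (𝓝 ((ContinuousLinearMap.adjoint T) (T x))) := by
    apply P_tendsto'
    apply ((ContinuousLinearMap.adjoint T).continuous.tendsto _).comp
    apply P_tendsto'
    apply P_tendsto'
    exact (T.continuous.tendsto _).comp (P_tendsto x)
  have h2 : Tendsto (fun n => P n (P n x)) atTop (𝓝 x) := P_tendsto' (P_tendsto x)
  have h3 : (ContinuousLinearMap.adjoint T) (T x) = x := by
    have := congrArg (fun A : E →L[ℂ] E => A x) h.adj_mul
    simpa [mul_apply_eq_comp] using this
  have h4 := h1.sub h2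
  rw [h3, sub_self] at h4
  exact h4

lemma Data.q2_tendsto (_h : Data a T) (x : E) :
    Tendsto (fun n => q2 T n x) atTop (𝓝 (T ((ContinuousLinearMap.adjoint T) x) - x)) := by
  unfold q2
  simp only [_root_.sub_apply, mul_apply_eq_comp, one_apply_eq_self]
  apply Tendsto.sub
  · apply P_tendsto'
    apply (T.continuous.tendsto _).comp
    apply P_tendsto'
    apply P_tendsto'
    exact ((ContinuousLinearMap.adjoint T).continuous.tendsto _).comp (P_tendsto x)
  · exact P_tendsto' (P_tendsto x)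

lemma Data.X_tendsto (h : Data a T) (x : E) : Tendsto (fun n => X T n x) atTop (𝓝 0) := by
  set w := T ((ContinuousLinearMap.adjoint T) x) - x with hw
  have h1 := h.q2_tendsto x
  have h2 : Tendsto (fun n => q1 T n (q2 T n x - w)) atTop (𝓝 0) := by
    apply squeeze_zero_norm (a := fun n => 2 * ‖q2 T n x - w‖)
    · intro n; exact h.norm_q1_le n _
    · have := (tendsto_iff_norm_sub_tendsto_zero.1 h1).const_mul 2
      simpa using this
  have h3 := h2.add (h.q1_tendsto w)
  simp only [map_sub, sub_add_cancel, add_zero] at h3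
  exact h3

lemma Data.WXW_tendsto (h : Data a T) (x : E) : Tendsto (fun n => (W n * X T n * W n) x) atTop (𝓝 0) := by
  simp only [h.WXW]
  apply squeeze_zero_norm (a := fun n => 2 * ‖q1 T n x‖)
  · intro n; exact h.norm_q2_le n _
  · have := (h.q1_tendsto x).norm.const_mul 2
    simpa using this

end

end Pool.Agent.H82R3.FS
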