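import Mathlib
import Pool.Agent.H82R3.FS.Core

set_option autoImplicit false
open Filter Topology
open scoped InnerProductSpace ComplexConjugate InnerProduct

namespace Pool.Agent.H82R3.FS

noncomputable section

/-- normalised constant vectors on `{0, …, n}` -/
def f (n : ℕ) : E := (((Real.sqrt (n + 1))⁻¹ : ℝ) : ℂ) • ∑ j ∈ Finset.range (n + 1), e j

lemma f_apply (n j : ℕ) : (f n) j = if j ≤ n then (((Real.sqrt (n + 1))⁻¹ : ℝ) : ℂ) else 0 := by
  unfold f
  rw [lp.coeFn_smul, Pi.smul_apply, sum_coe]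
  simp only [e_apply, smul_eq_mul]
  rw [Finset.sum_ite_eq]
  simp

lemma W_f (n : ℕ) : W n (f n) = f n := by
  ext j
  rw [W_apply, f_apply, f_apply]
  by_cases h : j ≤ n
  · rw [if_pos h, if_pos (by omega), if_pos h]
  · rw [if_neg h, if_neg h]

lemma P_f (n : ℕ) : P n (f n) = f n := by
  ext j
  rw [P_apply, f_apply]
  by_cases h : j ≤ n
  · rw [if_pos h]
  · rw [if_neg h, if_neg h]

lemma norm_f (n : ℕ) : ‖f n‖ = 1 := by
  have h1 : ‖f n‖ ^ 2 = 1 := by
    rw [norm_sq, tsum_eq_sum (s := Finset.range (n + 1))]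
    · rw [Finset.sum_congr rfl (g := fun _ => ((n : ℝ) + 1)⁻¹)]
      · rw [Finset.sum_const, Finset.card_range, nsmul_eq_mul]
        push_cast
        field_simp
      · intro j hj
        rw [f_apply, if_pos (by simpa [Nat.lt_succ_iff] using hj), Complex.norm_real, Real.norm_of_nonneg (by positivity),
          inv_pow, Real.sq_sqrt (by positivity)]
    · intro j hj
      rw [f_apply, if_neg (by simpa [Nat.lt_succ_iff] using hj)]
      simp
  have h2 : ‖f n‖ = Real.sqrt 1 := by rw [← h1, Real.sqrt_sq (norm_nonneg _)]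
  rw [h2, Real.sqrt_one]

variable {a : ℕ → ℝ} {T : E →L[ℂ] E}

lemma Data.adj_f (h : Data a T) (n j : ℕ) : ((ContinuousLinearMap.adjoint T) (f n)) j =
    if j ≤ n then (((Real.sqrt (n + 1))⁻¹ * ∑ i ∈ Finset.range (n - j + 1), a i : ℝ) : ℂ) else 0 := by
  unfold f
  rw [map_smul, map_sum, lp.coeFn_smul, Pi.smul_apply, sum_coe]
  simp only [h.adj_mat, smul_eq_mul]
  by_cases hj : j ≤ n
  · rw [if_pos hj]
    push_cast
    congr 1
    rw [← Finset.sum_filter]
    apply Finset.sum_bij' (i := fun k _ => k - j) (j := fun i _ => i + j)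
    · intro k hk
      simp only [Finset.mem_filter, Finset.mem_range] at hk ⊢
      omega
    · intro i hi
      simp only [Finset.mem_filter, Finset.mem_range] at hi ⊢
      omega
    · intro k hk
      simp only [Finset.mem_filter, Finset.mem_range] at hk
      omega
    · intro i hi
      omega
    · intro k hk
      rfl
  · rw [if_neg hj]
    rw [Finset.sum_eq_zero]
    · simp
    · intro k hk
      rw [if_neg]
      have := Finset.mem_range.1 hk
      omega

lemma Data.norm_adj_f (h : Data a T) (n : ℕ) : ‖(ContinuousLinearMap.adjoint T) (f n)‖ ^ 2 =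
    ((n : ℝ) + 1)⁻¹ * ∑ m ∈ Finset.range (n + 1), (∑ i ∈ Finset.range (m + 1), a i) ^ 2 := by
  rw [norm_sq, tsum_eq_sum (s := Finset.range (n + 1))]
  · rw [Finset.mul_sum, ← Finset.sum_range_reflect (fun j => ((n : ℝ) + 1)⁻¹ * (∑ i ∈ Finset.range (j + 1), a i) ^ 2)]
    apply Finset.sum_congr rfl
    intro j hj
    have hj' : j ≤ n := by simpa [Nat.lt_succ_iff] using hj
    rw [h.adj_f, if_pos hj', Complex.norm_real, Real.norm_eq_abs, sq_abs, mul_pow, inv_pow, Real.sq_sqrt (by positivity)]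
    simp
  · intro j hj
    rw [h.adj_f, if_neg (by simpa [Nat.lt_succ_iff] using hj)]
    simp

/-- mean square convergence of the partial sums -/
def MS (a : ℕ → ℝ) : Prop := Tendsto (fun n : ℕ => ((n : ℝ) + 1)⁻¹ *
  ∑ m ∈ Finset.range (n + 1), (∑ i ∈ Finset.range (m + 1), a i) ^ 2) atTop (𝓝 0)

lemma Data.adj_f_tendsto (h : Data a T) (ha : MS a) :
    Tendsto (fun n => ‖(ContinuousLinearMap.adjoint T) (f n)‖) atTop (𝓝 0) := by
  unfold MS at ha
  simp only [← h.norm_adj_f] at ha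
  have := ha.sqrt
  simpa [Real.sqrt_sq (norm_nonneg _)] using this

lemma Data.PTf_le (h : Data a T) (n : ℕ) : ‖P n (T (P n (f n)))‖ ≤ ‖(ContinuousLinearMap.adjoint T) (f n)‖ := by
  have h1 : P n (T (P n (f n))) = W n ((ContinuousLinearMap.adjoint T) (W n (f n))) := by
    have := congrArg (fun A : E →L[ℂ] E => A (f n)) (h.WTW' n)
    simp only [mul_apply_eq_comp] at this
    exact this.symm
  rw [h1, W_f]
  exact norm_W_le _ _

lemma Data.X_f (h : Data a T) (n : ℕ) : ‖X T n (f n) - f n‖ ≤ 3 * ‖(ContinuousLinearMap.adjoint T) (f n)‖ := by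
  set t := ‖(ContinuousLinearMap.adjoint T) (f n)‖ with ht
  have h2 : ‖q2 T n (f n) + f n‖ ≤ t := by
    unfold q2
    rw [_root_.sub_apply]
    simp only [mul_apply_eq_comp, one_apply_eq_self, P_f, sub_add_cancel]
    calc _ ≤ ‖T (P n (P n ((ContinuousLinearMap.adjoint T) (f n))))‖ := norm_P_le _ _
      _ = ‖P n (P n ((ContinuousLinearMap.adjoint T) (f n)))‖ := h.iso _
      _ ≤ _ := (norm_P_le _ _).trans (norm_P_le _ _)
  have h1 : ‖q1 T n (f n) + f n‖ ≤ t := by
    unfold q1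
    rw [_root_.sub_apply]
    simp only [mul_apply_eq_comp, one_apply_eq_self, P_f, sub_add_cancel]
    calc _ ≤ ‖(ContinuousLinearMap.adjoint T) (P n (P n (T (f n))))‖ := norm_P_le _ _
      _ ≤ ‖P n (P n (T (f n)))‖ := h.norm_adj_le _
      _ ≤ ‖P n (T (f n))‖ := norm_P_le _ _
      _ = ‖P n (T (P n (f n)))‖ := by rw [P_f]
      _ ≤ t := h.PTf_le n
  have e1 : X T n (f n) - f n = q1 T n (q2 T n (f n) + f n) - (q1 T n (f n) + f n) := by
    unfold X
    rw [mul_apply_eq_comp, map_add]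
    abel
  rw [e1]
  calc _ ≤ ‖q1 T n (q2 T n (f n) + f n)‖ + ‖q1 T n (f n) + f n‖ := norm_sub_le _ _
    _ ≤ 2 * t + t := add_le_add ((h.norm_q1_le n _).trans (by linarith)) h1
    _ = 3 * t := by ring

/-- a compact operator maps `f n` to vectors that tend to `0` -/
lemma compact_f {K : E →L[ℂ] E} (hK : IsCompactOperator K) : Tendsto (fun n => ‖K (f n)‖) atTop (𝓝 0) := by
  -- weak convergence
  have hw : ∀ y : E, Tendsto (fun n => ⟪y, f n⟫_ℂ) atTop (𝓝 0) := by
    intro y
    rw [Metric.tendsto_atTop]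
    intro ε hε
    obtain ⟨N, hN⟩ := (Metric.tendsto_atTop.1 (P_tendsto y)) (ε / 2) (by positivity)
    have hN := hN N le_rfl
    -- inner (P N y) (f n) → 0
    have h1 : Tendsto (fun n : ℕ => (((Real.sqrt (n + 1))⁻¹ : ℝ)) * ∑ j ∈ Finset.range (N + 1), ‖y j‖) atTop (𝓝 0) := by
      have h2 : Tendsto (fun n : ℕ => (((Real.sqrt (n + 1))⁻¹ : ℝ))) atTop (𝓝 0) := by
        apply Tendsto.inv_tendsto_atTop
        apply Real.tendsto_sqrt_atTop.comp
        exact tendsto_atTop_add_const_right _ _ tendsto_natCast_atTop_atTop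
      simpa using h2.mul_const (∑ j ∈ Finset.range (N + 1), ‖y j‖)
    obtain ⟨M, hM⟩ := (Metric.tendsto_atTop.1 h1) (ε / 2) (by positivity)
    refine ⟨M, fun n hn => ?_⟩
    have hM := hM n hn
    rw [dist_zero_right] at hM ⊢
    have e1 : ⟪y, f n⟫_ℂ = ⟪y - P N y, f n⟫_ℂ + ⟪P N y, f n⟫_ℂ := by rw [← inner_add_left, sub_add_cancel]
    have e2 : ‖⟪y - P N y, f n⟫_ℂ‖ < ε / 2 := by
      calc _ ≤ ‖y - P N y‖ * ‖f n‖ := norm_inner_le_norm _ _
        _ = dist (P N y) y := by rw [norm_f, mul_one, dist_comm, dist_eq_norm]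
        _ < _ := hN
    have e3 : ‖⟪P N y, f n⟫_ℂ‖ ≤ (((Real.sqrt (n + 1))⁻¹ : ℝ)) * ∑ j ∈ Finset.range (N + 1), ‖y j‖ := by
      have e4 : ⟪P N y, f n⟫_ℂ = ∑ j ∈ Finset.range (N + 1), conj (y j) * (f n) j := by
        unfold P
        rw [_root_.sum_apply, sum_inner]
        apply Finset.sum_congr rfl
        intro j _
        rw [ContinuousLinearMap.smulRight_apply, inner_smul_left, inner_e, innerSL_apply_apply, inner_e]
      rw [e4, Finset.mul_sum]
      apply norm_sum_le_of_le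
      intro j _
      rw [norm_mul, RCLike.norm_conj, mul_comm]
      apply mul_le_mul_of_nonneg_right _ (norm_nonneg _)
      rw [f_apply]
      split_ifs
      · rw [Complex.norm_real, Real.norm_of_nonneg (by positivity)]
      · rw [norm_zero]; positivity
    have e5 : (((Real.sqrt (n + 1))⁻¹ : ℝ)) * ∑ j ∈ Finset.range (N + 1), ‖y j‖ < ε / 2 := by
      refine lt_of_le_of_lt (le_abs_self _) ?_
      simpa using hM
    rw [e1]
    calc _ ≤ _ := norm_add_le _ _
      _ < ε / 2 + ε / 2 := add_lt_add_of_lt_of_le e2 (e3.trans e5.le)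
      _ = ε := by ring
  obtain ⟨S, hS, hS2⟩ := hK.image_closedBall_subset_compact 1
  apply tendsto_of_subseq_tendsto
  intro ns hns
  have hmem : ∀ n, K (f (ns n)) ∈ S := fun n => hS2 ⟨f (ns n), by simp [norm_f], rfl⟩
  obtain ⟨z, -, φ, hφ, hz⟩ := hS.tendsto_subseq hmem
  refine ⟨φ, ?_⟩
  have hz0 : z = 0 := by
    have h1 : Tendsto (fun n => ⟪z, K (f (ns (φ n)))⟫_ℂ) atTop (𝓝 ⟪z, z⟫_ℂ) :=
      ((continuous_const.inner continuous_id).tendsto z).comp hz
    have h2 : Tendsto (fun n => ⟪z, K (f (ns (φ n)))⟫_ℂ) atTop (𝓝 0) := by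
      have := (hw ((ContinuousLinearMap.adjoint K) z)).comp (hns.comp hφ.tendsto_atTop)
      refine this.congr (fun n => ?_)
      simp only [Function.comp]
      rw [ContinuousLinearMap.adjoint_inner_left]
    have h3 := tendsto_nhds_unique h1 h2
    exact inner_self_eq_zero.1 h3
  have := hz.norm
  rw [hz0, norm_zero] at this
  exact this

/-- the sequence `X` is not in the ideal `J` -/
lemma Data.not_J (h : Data a T) (ha : MS a) (K K' : E →L[ℂ] E) (hK : IsCompactOperator K) (hK' : IsCompactOperator K')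
    (C : ℕ → E →L[ℂ] E) (hC : Tendsto (fun n => ‖C n‖) atTop (𝓝 0))
    (hX : ∀ n, X T n = P n * K * P n + W n * K' * W n + C n) : False := by
  have h1 : ∀ n, ‖f n‖ ≤ ‖K (f n)‖ + ‖K' (f n)‖ + ‖C n‖ + 3 * ‖(ContinuousLinearMap.adjoint T) (f n)‖ := by
    intro n
    have h2 : f n = X T n (f n) - (X T n (f n) - f n) := by abel
    have h3 : X T n (f n) = P n (K (f n)) + W n (K' (f n)) + C n (f n) := by
      rw [hX, _root_.add_apply, _root_.add_apply]
      simp only [mul_apply_eq_comp, P_f, W_f]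
    calc ‖f n‖ = ‖X T n (f n) - (X T n (f n) - f n)‖ := by rw [← h2]
      _ ≤ ‖X T n (f n)‖ + ‖X T n (f n) - f n‖ := norm_sub_le _ _
      _ ≤ (‖K (f n)‖ + ‖K' (f n)‖ + ‖C n‖) + 3 * ‖(ContinuousLinearMap.adjoint T) (f n)‖ := by
        apply add_le_add _ (h.X_f n)
        rw [h3]
        refine (norm_add_le _ _).trans (add_le_add ((norm_add_le _ _).trans (add_le_add (norm_P_le _ _) (norm_W_le _ _))) ?_)
        calc ‖C n (f n)‖ ≤ ‖C n‖ * ‖f n‖ := ContinuousLinearMap.le_opNorm _ _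
          _ = ‖C n‖ := by rw [norm_f, mul_one]
  have h2 : Tendsto (fun n => ‖K (f n)‖ + ‖K' (f n)‖ + ‖C n‖ + 3 * ‖(ContinuousLinearMap.adjoint T) (f n)‖) atTop (𝓝 0) := by
    have := (((compact_f hK).add (compact_f hK')).add hC).add ((h.adj_f_tendsto ha).const_mul 3)
    simpa using this
  have h3 : (1 : ℝ) ≤ 0 := by
    apply ge_of_tendsto h2
    filter_upwards with n
    have := h1 n
    rwa [norm_f] at this
  linarith

end

end Pool.Agent.H82R3.FS
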