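import Mathlib
import Pool.Agent.H82R3.FS.Ana
import Pool.Agent.H82R3.FS.Fin

set_option autoImplicit false
open Filter Topology MeasureTheory AddCircle
open scoped ComplexConjugate InnerProductSpace

namespace Pool.Agent.H82R3.FS

noncomputable section

lemma memLp_bdd {h : C1 → ℂ} (hm : Measurable h) (B : ℝ) (hb : ∀ᵐ t ∂μ, ‖h t‖ ≤ B) : MemLp h 2 μ :=
  MemLp.of_bound hm.aestronglyMeasurable B hb

lemma memLp_g : MemLp g 2 μ := memLp_bdd measurable_g 1 (by filter_upwards [norm_g] with t ht; exact ht.le)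

lemma memLp_fg (m : ℤ) : MemLp (fun t => fourier m t * g t) 2 μ := by
  apply memLp_bdd ((map_continuous (fourier m)).measurable.mul measurable_g) 1
  filter_upwards [norm_g] with t ht
  show ‖fourier m t * g t‖ ≤ 1
  rw [norm_mul, ht, mul_one, fourier_apply, Circle.norm_coe]

lemma coeff_fg (m i : ℤ) : fourierCoeff (fun t : C1 => fourier m t * g t) i = fourierCoeff g (i - m) := by
  unfold fourierCoeff
  apply integral_congr_ae
  filter_upwards with t
  rw [smul_eq_mul, smul_eq_mul, ← mul_assoc, ← fourier_add]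
  congr 3
  ring

lemma int_fourier (m : ℤ) : ∫ t : C1, fourier (-m) t ∂μ = if m = 0 then 1 else 0 := by
  have h := congrFun (fourierCoeff_fourier (T := (1:ℝ)) (0 : ℤ)) m
  unfold fourierCoeff at h
  rw [Pi.single_apply] at h
  rw [← h]
  apply integral_congr_ae
  filter_upwards with t
  rw [fourier_zero, smul_eq_mul, mul_one]

lemma parseval_int (m : ℤ) : HasSum (fun i : ℤ => conj (fourierCoeff g (i - m)) * fourierCoeff g i)
    (if m = 0 then 1 else 0) := by
  set x : Lp ℂ 2 μ := (memLp_fg m).toLp _ with hx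
  set y : Lp ℂ 2 μ := memLp_g.toLp _ with hy
  have h := HilbertBasis.hasSum_inner_mul_inner (fourierBasis (T := (1:ℝ))) x y
  have h1 : ∀ i : ℤ, ⟪(fourierBasis (T := (1:ℝ))) i, y⟫_ℂ = fourierCoeff g i := by
    intro i
    rw [← HilbertBasis.repr_apply_apply, fourierBasis_repr]
    exact congrFun (fourierCoeff_congr_ae memLp_g.coeFn_toLp) i
  have h2 : ∀ i : ℤ, ⟪x, (fourierBasis (T := (1:ℝ))) i⟫_ℂ = conj (fourierCoeff g (i - m)) := by
    intro i
    rw [← inner_conj_symm, ← HilbertBasis.repr_apply_apply, fourierBasis_repr]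
    rw [congrFun (fourierCoeff_congr_ae (memLp_fg m).coeFn_toLp) i, coeff_fg]
  simp only [h1, h2] at h
  have h3 : ⟪x, y⟫_ℂ = if m = 0 then 1 else 0 := by
    rw [L2.inner_def, ← int_fourier m]
    apply integral_congr_ae
    filter_upwards [(memLp_fg m).coeFn_toLp, memLp_g.coeFn_toLp, norm_g] with t h4 h5 h6
    rw [hx, hy, h4, h5]
    rw [RCLike.inner_apply, map_mul, ← fourier_neg]
    have h7 : g t * conj (g t) = 1 := by
      rw [Complex.mul_conj, Complex.normSq_eq_norm_sq, h6]; simp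
    calc g t * (fourier (-m) t * conj (g t)) = fourier (-m) t * (g t * conj (g t)) := by ring
      _ = fourier (-m) t := by rw [h7, mul_one]
  rw [h3] at h
  exact h

lemma parseval (m : ℕ) : HasSum (fun k : ℕ => a k * a (k + m)) (if m = 0 then 1 else 0) := by
  have h := parseval_int (m : ℤ)
  have hinj : Function.Injective (fun k : ℕ => (k : ℤ) + m) := by
    intro p q hpq
    simpa using hpq
  rw [← hinj.hasSum_iff] at h
  · have h2 : HasSum (fun k : ℕ => ((a k * a (k + m) : ℝ) : ℂ)) (((if m = 0 then 1 else 0 : ℝ)) : ℂ) := by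
      convert h using 1
      · funext k
        simp only [Function.comp]
        rw [coeff_g, coeff_g, if_pos (by omega), if_pos (by omega)]
        have e1 : ((k : ℤ) + m - m).toNat = k := by omega
        have e2 : ((k : ℤ) + m).toNat = k + m := by omega
        rw [e1, e2, c_eq, c_eq, Complex.conj_ofReal]
        push_cast; ring
      · by_cases hm : m = 0
        · simp [hm]
        · simp [hm]
    exact_mod_cast h2
  · intro i hi
    rw [coeff_g, if_neg, map_zero, zero_mul]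
    intro h0
    apply hi
    exact ⟨(i - m).toNat, by simp; omega⟩

/-- the columns of the matrix -/
def vfun (k : ℕ) (j : ℕ) : ℂ := if k ≤ j then ((a (j - k) : ℝ) : ℂ) else 0

lemma summable_a_sq : Summable (fun k => a k ^ 2) := by
  have h := (parseval 0).summable
  refine h.congr (fun k => ?_)
  rw [add_zero, sq]

lemma memℓp_v (k : ℕ) : Memℓp (vfun k) 2 := by
  apply memℓp_gen
  simp only [ENNReal.toReal_ofNat]
  rw [← summable_nat_add_iff k]
  refine (summable_a_sq).congr (fun j => ?_)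
  unfold vfun
  rw [if_pos (by omega), Nat.add_sub_cancel, Complex.norm_real]
  rw [show ((2 : ℝ)) = ((2 : ℕ) : ℝ) by norm_num, Real.rpow_natCast, Real.norm_eq_abs, sq_abs]

def v (k : ℕ) : E := ⟨vfun k, memℓp_v k⟩

lemma v_apply (k j : ℕ) : (v k) j = if k ≤ j then ((a (j - k) : ℝ) : ℂ) else 0 := rfl

lemma inner_v (k m : ℕ) : ⟪v k, v (k + m)⟫_ℂ = if m = 0 then 1 else 0 := by
  have h : HasSum (fun i : ℕ => ⟪(v k) i, (v (k + m)) i⟫_ℂ) ⟪v k, v (k + m)⟫_ℂ :=
    lp.hasSum_inner (v k) (v (k + m))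
  have h2 : HasSum (fun i : ℕ => ⟪(v k) i, (v (k + m)) i⟫_ℂ) (if m = 0 then 1 else 0) := by
    have hinj : Function.Injective (fun i : ℕ => i + (k + m)) := fun p q hpq => by simpa using hpq
    rw [← hinj.hasSum_iff]
    · have h3 := parseval m
      have h4 : HasSum (fun k : ℕ => ((a k * a (k + m) : ℝ) : ℂ)) (((if m = 0 then 1 else 0 : ℝ)) : ℂ) := by
        exact_mod_cast h3
      convert h4 using 1
      · funext i
        simp only [Function.comp]
        rw [v_apply, v_apply, if_pos (by omega), if_pos (by omega)]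
        have e1 : i + (k + m) - k = i + m := by omega
        have e2 : i + (k + m) - (k + m) = i := by omega
        rw [e1, e2, RCLike.inner_apply, Complex.conj_ofReal]
        push_cast; ring
      · by_cases hm : m = 0 <;> simp [hm]
    · intro i hi
      have : ¬ (k + m ≤ i) := by
        intro h0
        apply hi
        exact ⟨i - (k + m), by simp; omega⟩
      rw [v_apply (k + m), if_neg this, inner_zero_right]
  exact h.unique h2

lemma orthonormal_v : Orthonormal ℂ v := by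
  rw [orthonormal_iff_ite]
  intro i j
  rcases le_total i j with h | h
  · obtain ⟨m, rfl⟩ := Nat.exists_eq_add_of_le h
    rw [inner_v]
    by_cases hm : m = 0
    · simp [hm]
    · rw [if_neg hm, if_neg (by omega)]
  · obtain ⟨m, rfl⟩ := Nat.exists_eq_add_of_le h
    rw [← inner_conj_symm, inner_v]
    by_cases hm : m = 0
    · simp [hm]
    · rw [if_neg hm, if_neg (by omega), map_zero]

/-- the Toeplitz operator -/
def T : E →L[ℂ] E := (orthonormal_v.orthogonalFamily.linearIsometry).toContinuousLinearMap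

lemma T_e (k : ℕ) : T (e k) = v k := by
  unfold T e
  rw [LinearIsometry.coe_toContinuousLinearMap, OrthogonalFamily.linearIsometry_apply_single]
  simp

lemma data : Data a T where
  iso := fun x => (orthonormal_v.orthogonalFamily.linearIsometry).norm_map x
  mat := by
    intro j k
    rw [T_e, v_apply]

/-- partial sums -/
def A (m : ℕ) : ℝ := ∑ i ∈ Finset.range (m + 1), a i

lemma hasSum_A {z : ℂ} (hz : ‖z‖ < 1) : Summable (fun m => ‖(A m : ℂ) * z ^ m‖) ∧
    HasSum (fun m => (A m : ℂ) * z ^ m) (G z / (1 - z)) := by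
  have h1 := hasSum_G hz
  have hs1 : Summable (fun n => ‖c n * z ^ n‖) := h1.summable.norm
  have h2 := hasSum_geometric_of_norm_lt_one hz
  have hs2 : Summable (fun n => ‖z ^ n‖) := h2.summable.norm
  have hsA : ∀ m, ∑ k ∈ Finset.range (m + 1), (c k * z ^ k) * z ^ (m - k) = (A m : ℂ) * z ^ m := by
    intro m
    unfold A
    push_cast
    rw [Finset.sum_mul]
    apply Finset.sum_congr rfl
    intro k hk
    have hk' : k ≤ m := by simpa [Nat.lt_succ_iff] using hk
    rw [c_eq, mul_assoc, ← pow_add, Nat.add_sub_cancel' hk']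
  have h3 := hasSum_sum_range_mul_of_summable_norm hs1 hs2
  have h4 := summable_norm_sum_mul_range_of_summable_norm hs1 hs2
  simp only [hsA] at h3 h4
  refine ⟨h4, ?_⟩
  rw [h1.tsum_eq, h2.tsum_eq] at h3
  rw [div_eq_mul_inv]
  exact h3

/-- the function whose Fourier coefficients are `A k r^k` -/
def hh (m : ℕ) (t : C1) : ℂ := G ((rr m : ℂ) * zt t) / (1 - (rr m : ℂ) * zt t)

lemma coeff_hh (m : ℕ) (n : ℕ) : fourierCoeff (hh m) (n : ℤ) = (A n : ℂ) * (rr m : ℂ) ^ n := by
  have e : hh m = fun t : C1 => ∑' k, ((A k : ℂ) * (rr m : ℂ) ^ k) * zt t ^ k := by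
    funext t
    unfold hh
    rw [← (hasSum_A (z := (rr m : ℂ) * zt t) (by rw [norm_rz]; exact rr_lt m)).2.tsum_eq]
    apply tsum_congr
    intro k
    rw [mul_pow]; ring
  rw [e, coeff_of_sum]
  · simp
  · have h := (hasSum_A (z := (rr m : ℂ)) (by
      rw [Complex.norm_real, Real.norm_of_nonneg (rr_pos m).le]; exact rr_lt m)).1
    exact h

lemma one_sub_ne (m : ℕ) (t : C1) : 1 - (rr m : ℂ) * zt t ≠ 0 := sub_ne_zero.2 (rz_ne m t).symm

lemma measurable_hh (m : ℕ) : Measurable (hh m) := by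
  unfold hh
  exact (measurable_G.comp (continuous_const.mul continuous_zt).measurable).div
    (continuous_const.sub (continuous_const.mul continuous_zt)).measurable

lemma norm_one_sub (m : ℕ) (t : C1) : 1 - rr m ≤ ‖1 - (rr m : ℂ) * zt t‖ := by
  calc 1 - rr m = ‖(1 : ℂ)‖ - ‖(rr m : ℂ) * zt t‖ := by rw [norm_one, norm_rz]
    _ ≤ _ := norm_sub_norm_le _ _

lemma memLp_hh (m : ℕ) : MemLp (hh m) 2 μ := by
  apply memLp_bdd (measurable_hh m) (1 / (1 - rr m))
  filter_upwards with t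
  unfold hh
  rw [norm_div]
  have h0 : 0 < 1 - rr m := by linarith [rr_lt m]
  apply div_le_div₀ zero_le_one _ h0 (norm_one_sub m t)
  exact norm_G_le (rz_ne m t) (by rw [norm_rz]; exact (rr_lt m).le)

lemma bessel (m n : ℕ) : ∑ k ∈ Finset.range (n + 1), (A k) ^ 2 * (rr m) ^ (2 * k) ≤ ∫ t : C1, ‖hh m t‖ ^ 2 ∂μ := by
  have h := hasSum_sq_fourierCoeff ((memLp_hh m).toLp (hh m))
  have e1 : ∫ t : C1, ‖((memLp_hh m).toLp (hh m) : C1 → ℂ) t‖ ^ 2 ∂μ = ∫ t : C1, ‖hh m t‖ ^ 2 ∂μ := by
    apply integral_congr_ae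
    filter_upwards [(memLp_hh m).coeFn_toLp] with t ht
    rw [ht]
  rw [e1] at h
  have e2 : ∀ i : ℤ, fourierCoeff ((memLp_hh m).toLp (hh m) : C1 → ℂ) i = fourierCoeff (hh m) i :=
    fun i => congrFun (fourierCoeff_congr_ae (memLp_hh m).coeFn_toLp) i
  simp only [e2] at h
  have h2 := sum_le_hasSum ((Finset.range (n + 1)).map ⟨fun k : ℕ => (k : ℤ), Nat.cast_injective⟩) (fun i _ => by positivity) h
  rw [Finset.sum_map] at h2
  refine le_trans (le_of_eq ?_) h2
  apply Finset.sum_congr rfl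
  intro k _
  simp only [Function.Embedding.coeFn_mk]
  rw [coeff_hh, norm_mul, norm_pow, Complex.norm_real, Complex.norm_real, mul_pow, Real.norm_eq_abs, Real.norm_eq_abs,
    sq_abs, ← pow_mul, mul_comm k 2, pow_mul |rr m|, sq_abs, ← pow_mul]

lemma int_tendsto : Tendsto (fun m => ∫ t : C1, (1 - rr m ^ 2) * ‖hh m t‖ ^ 2 ∂μ) atTop (𝓝 0) := by
  have h0 : (0 : ℝ) = ∫ _t : C1, (0 : ℝ) ∂μ := by simp
  rw [h0]
  apply tendsto_integral_of_dominated_convergence (fun _ => (1 : ℝ))
  · intro m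
    exact ((measurable_hh m).norm.pow_const 2).const_mul _ |>.aestronglyMeasurable
  · exact integrable_const _
  · intro m
    filter_upwards with t
    have hr := rr_lt m
    have hr0 := rr_pos m
    have h1 : 0 ≤ 1 - rr m ^ 2 := by nlinarith
    rw [Real.norm_of_nonneg (by positivity)]
    unfold hh
    rw [norm_div, norm_G (rz_ne m t), norm_rz]
    set u := (1 - rr m ^ 2) / ‖1 - (rr m : ℂ) * zt t‖ ^ 2 with hu
    have hu0 : 0 ≤ u := by positivity
    have e1 : (1 - rr m ^ 2) * (Real.exp (-u) / ‖1 - (rr m : ℂ) * zt t‖) ^ 2 = u * Real.exp (-u) ^ 2 := by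
      rw [hu, div_pow]; ring
    rw [e1]
    have h2 : u ≤ Real.exp u := by linarith [Real.add_one_le_exp u]
    have h3 : Real.exp u * Real.exp (-u) = 1 := by rw [← Real.exp_add]; simp
    have h4 : 0 < Real.exp (-u) := Real.exp_pos _
    have h5 : Real.exp (-u) ≤ 1 := Real.exp_le_one_iff.2 (by linarith)
    calc u * Real.exp (-u) ^ 2 ≤ Real.exp u * Real.exp (-u) ^ 2 := by gcongr
      _ = (Real.exp u * Real.exp (-u)) * Real.exp (-u) := by ring
      _ = Real.exp (-u) := by rw [h3, one_mul]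
      _ ≤ 1 := h5
  · filter_upwards [zt_ne_one] with t ht
    have hne : ‖1 - zt t‖ ≠ 0 := by
      rw [norm_ne_zero_iff]
      exact sub_ne_zero.2 ht.symm
    have h3 : Tendsto (fun m => (rr m : ℂ)) atTop (𝓝 ((1 : ℝ) : ℂ)) :=
      (Complex.continuous_ofReal.tendsto 1).comp rr_tendsto
    have h4 : Tendsto (fun m => ‖1 - (rr m : ℂ) * zt t‖) atTop (𝓝 ‖1 - zt t‖) := by
      have := ((h3.mul_const (zt t)).const_sub 1).norm
      simpa using this
    have h5 : Tendsto (fun m => (1 - rr m ^ 2) * (1 / ‖1 - (rr m : ℂ) * zt t‖) ^ 2) atTop (𝓝 0) := by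
      have h6 : Tendsto (fun m => 1 - rr m ^ 2) atTop (𝓝 0) := by
        have := (rr_tendsto.pow 2).const_sub 1
        simpa using this
      have h7 := h6.mul (((tendsto_const_nhds (x := (1 : ℝ))).div h4 hne).pow 2)
      rw [zero_mul] at h7
      exact h7
    apply squeeze_zero (fun m => ?_) (fun m => ?_) h5
    · have hr := rr_lt m
      have hr0 := rr_pos m
      have h1 : 0 ≤ 1 - rr m ^ 2 := by nlinarith
      positivity
    · have hr := rr_lt m
      have hr0 := rr_pos m
      have h1 : 0 ≤ 1 - rr m ^ 2 := by nlinarith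
      unfold hh
      rw [norm_div]
      gcongr
      exact norm_G_le (rz_ne m t) (by rw [norm_rz]; exact hr.le)

lemma rr_pow_ge (n k : ℕ) (hk : k ≤ n) : Real.exp (-2) ≤ rr n ^ (2 * k) := by
  have h0 := rr_pos n
  have h1 : rr n ^ (2 * n) ≤ rr n ^ (2 * k) := pow_le_pow_of_le_one h0.le (rr_lt n).le (by omega)
  refine le_trans ?_ h1
  have h2 : Real.exp (-(1 / ((n : ℝ) + 1))) ≤ rr n := by
    have h3 : (rr n)⁻¹ = 1 + 1 / ((n : ℝ) + 1) := by
      unfold rr
      have : ((n : ℝ) + 2) ≠ 0 := by positivity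
      have h4 : ((n : ℝ) + 1) ≠ 0 := by positivity
      rw [inv_eq_iff_eq_inv]
      field_simp
      ring
    have h4 : 1 + 1 / ((n : ℝ) + 1) ≤ Real.exp (1 / ((n : ℝ) + 1)) := by
      linarith [Real.add_one_le_exp (1 / ((n : ℝ) + 1))]
    rw [← h3] at h4
    rw [Real.exp_neg]
    have h5 := inv_anti₀ (inv_pos.2 h0) h4
    rwa [inv_inv] at h5
  calc Real.exp (-2) ≤ Real.exp (-(1 / ((n : ℝ) + 1))) ^ (2 * n) := by
        rw [← Real.exp_nat_mul]
        apply Real.exp_le_exp.2
        push_cast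
        have : (n : ℝ) * (1 / ((n : ℝ) + 1)) ≤ 1 := by
          rw [mul_one_div, div_le_one (by positivity)]
          linarith
        nlinarith
    _ ≤ rr n ^ (2 * n) := pow_le_pow_left₀ (Real.exp_pos _).le h2 _

lemma ms : MS a := by
  unfold MS
  have h := int_tendsto.const_mul (2 * Real.exp 2)
  rw [mul_zero] at h
  apply squeeze_zero (fun n => by positivity) (fun n => ?_) h
  have h1 := bessel n n
  have h2 : Real.exp (-2) * ∑ k ∈ Finset.range (n + 1), (A k) ^ 2 ≤ ∫ t : C1, ‖hh n t‖ ^ 2 ∂μ := by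
    refine le_trans ?_ h1
    rw [Finset.mul_sum]
    apply Finset.sum_le_sum
    intro k hk
    have hk' : k ≤ n := by simpa [Nat.lt_succ_iff] using hk
    rw [mul_comm]
    exact mul_le_mul_of_nonneg_left (rr_pow_ge n k hk') (sq_nonneg _)
  rw [integral_const_mul]
  have h3 : ((n : ℝ) + 1)⁻¹ ≤ 2 * (1 - rr n ^ 2) := by
    have h4 : 1 - rr n = 1 / ((n : ℝ) + 2) := by unfold rr; ring
    have h5 := rr_pos n
    have h6 : 1 - rr n ^ 2 = (1 - rr n) * (1 + rr n) := by ring
    rw [h6, h4]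
    have h7 : ((n : ℝ) + 1)⁻¹ ≤ 2 * (1 / ((n : ℝ) + 2)) := by
      rw [mul_one_div, inv_eq_one_div, div_le_div_iff₀ (by positivity) (by positivity)]
      nlinarith [(Nat.cast_nonneg n : (0 : ℝ) ≤ n)]
    have h8 : 2 * (1 / ((n : ℝ) + 2)) ≤ 2 * (1 / ((n : ℝ) + 2) * (1 + rr n)) := by
      have : 0 < 1 / ((n : ℝ) + 2) := by positivity
      nlinarith
    linarith
  have h9 : Real.exp 2 * Real.exp (-2) = 1 := by rw [← Real.exp_add]; simp
  have h10 : ∑ k ∈ Finset.range (n + 1), (A k) ^ 2 ≤ Real.exp 2 * ∫ t : C1, ‖hh n t‖ ^ 2 ∂μ := by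
    calc _ = Real.exp 2 * (Real.exp (-2) * ∑ k ∈ Finset.range (n + 1), (A k) ^ 2) := by
          rw [← mul_assoc, h9, one_mul]
      _ ≤ _ := mul_le_mul_of_nonneg_left h2 (Real.exp_pos _).le
  have h11 : 0 ≤ ∑ k ∈ Finset.range (n + 1), (A k) ^ 2 := Finset.sum_nonneg (fun _ _ => sq_nonneg _)
  calc ((n : ℝ) + 1)⁻¹ * ∑ m ∈ Finset.range (n + 1), (∑ i ∈ Finset.range (m + 1), a i) ^ 2
      = ((n : ℝ) + 1)⁻¹ * ∑ k ∈ Finset.range (n + 1), (A k) ^ 2 := rfl
    _ ≤ (2 * (1 - rr n ^ 2)) * (Real.exp 2 * ∫ t : C1, ‖hh n t‖ ^ 2 ∂μ) := by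
        apply mul_le_mul h3 h10 h11
        exact le_trans (by positivity) h3
    _ = 2 * Real.exp 2 * ((1 - rr n ^ 2) * ∫ t : C1, ‖hh n t‖ ^ 2 ∂μ) := by ring

end

end Pool.Agent.H82R3.FS
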