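import Mathlib
import Pool.Agent.H82R3.FS.Ana2

set_option autoImplicit false
open Filter Topology MeasureTheory AddCircle
open scoped ComplexConjugate InnerProductSpace

namespace Pool.Agent.H82R3.FS

noncomputable section

lemma vol_eq : (volume : Measure C1) = μ := by
  rw [volume_eq_smul_haarAddCircle]
  simp

/-- the sequences `P_n T(a) P_n` -/
def GenSet (P : ℕ → (E →L[ℂ] E)) : Set (ℕ → (E →L[ℂ] E)) :=
  {G : ℕ → (lp (fun _ : ℕ => ℂ) 2 →L[ℂ] lp (fun _ : ℕ => ℂ) 2) |
              ∃ a : Lp ℂ ⊤ (volume : Measure (AddCircle (1 : ℝ))),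
              ∃ T : lp (fun _ : ℕ => ℂ) 2 →L[ℂ] lp (fun _ : ℕ => ℂ) 2,
                (∀ j k : ℕ, (T (lp.single 2 k (1 : ℂ) : lp (fun _ : ℕ => ℂ) 2)) j
                    = fourierCoeff (⇑a : AddCircle (1 : ℝ) → ℂ) ((j : ℤ) - (k : ℤ))) ∧
                ∀ n, G n = P n * T * P n}

lemma exists_Lp {h : C1 → ℂ} (hm : Measurable h) (hb : ∀ᵐ t ∂μ, ‖h t‖ ≤ 1) :
    ∃ a : Lp ℂ ⊤ (volume : Measure (AddCircle (1 : ℝ))), ∀ n : ℤ, fourierCoeff (⇑a : AddCircle (1 : ℝ) → ℂ) n = fourierCoeff h n := by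
  have hb' : ∀ᵐ t ∂(volume : Measure C1), ‖h t‖ ≤ 1 := by rw [vol_eq]; exact hb
  have hmem : MemLp h ⊤ (volume : Measure C1) := memLp_top_of_bound hm.aestronglyMeasurable 1 hb'
  refine ⟨hmem.toLp h, fun n => ?_⟩
  apply congrFun
  apply fourierCoeff_congr_ae
  have h1 := hmem.coeFn_toLp
  rw [Filter.EventuallyEq, Filter.Eventually] at h1 ⊢
  have h2 : ae (haarAddCircle : Measure C1) = ae (volume : Measure C1) := by rw [vol_eq]
  rw [h2]
  exact h1

lemma mem_T : (fun n => P n * T * P n) ∈ GenSet P := by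
  obtain ⟨a', ha'⟩ := exists_Lp measurable_g (by filter_upwards [norm_g] with t ht; exact ht.le)
  refine ⟨a', T, fun j k => ?_, fun n => rfl⟩
  rw [ha', coeff_g]
  have := data.mat j k
  unfold e at this
  rw [this]
  by_cases h : k ≤ j
  · rw [if_pos h, if_pos (by omega), c_eq]
    congr 2
    omega
  · rw [if_neg h, if_neg (by omega)]

lemma coeff_conj (n : ℤ) : fourierCoeff (fun t : C1 => conj (g t)) n = conj (fourierCoeff g (-n)) := by
  unfold fourierCoeff
  rw [← integral_conj]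
  apply integral_congr_ae
  filter_upwards with t
  rw [smul_eq_mul, smul_eq_mul, map_mul, ← fourier_neg, neg_neg]

lemma mem_Tadj : (fun n => P n * (ContinuousLinearMap.adjoint T) * P n) ∈ GenSet P := by
  have hm : Measurable (fun t : C1 => conj (g t)) := by
    exact Complex.continuous_conj.measurable.comp measurable_g
  obtain ⟨a', ha'⟩ := exists_Lp hm (by filter_upwards [norm_g] with t ht; rw [RCLike.norm_conj]; exact ht.le)
  refine ⟨a', ContinuousLinearMap.adjoint T, fun j k => ?_, fun n => rfl⟩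
  rw [ha', coeff_conj, coeff_g]
  have := data.adj_mat j k
  unfold e at this
  rw [this]
  by_cases h : j ≤ k
  · rw [if_pos h, if_pos (by omega), c_eq, Complex.conj_ofReal]
    congr 2
    omega
  · rw [if_neg h, if_neg (by omega), map_zero]

lemma mem_one : (fun n => P n * (1 : E →L[ℂ] E) * P n) ∈ GenSet P := by
  obtain ⟨a', ha'⟩ := exists_Lp (h := fun _ => (1 : ℂ)) measurable_const (by simp)
  refine ⟨a', 1, fun j k => ?_, fun n => rfl⟩
  rw [ha']
  have e1 : (fun _ : C1 => (1 : ℂ)) = (fourier 0 : C(AddCircle (1:ℝ), ℂ)) := by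
    funext t
    rw [fourier_zero]
  rw [e1, fourierCoeff_fourier, Pi.single_apply, one_apply_eq_self]
  have := e_apply k j
  unfold e at this
  rw [this]
  by_cases h : j = k
  · rw [if_pos h, if_pos (by omega)]
  · rw [if_neg h, if_neg (by omega)]

lemma X_mem : (X T) ∈ NonUnitalAlgebra.adjoin ℂ (GenSet P) := by
  have h1 := NonUnitalAlgebra.subset_adjoin ℂ (s := GenSet P) mem_T
  have h2 := NonUnitalAlgebra.subset_adjoin ℂ (s := GenSet P) mem_Tadj
  have h3 := NonUnitalAlgebra.subset_adjoin ℂ (s := GenSet P) mem_one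
  have h4 := mul_mem (sub_mem (mul_mem h2 h1) h3) (sub_mem (mul_mem h1 h2) h3)
  exact h4

end

end Pool.Agent.H82R3.FS
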